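import Pool.Agent.Q189.SP.Dims

/-!
# The dimension of the values of multiple polylogarithms at `1/n` and `1 - 1/n`

Let `Z N` be the `ℚ`-span of the multiple zeta values of weight `N`, and for integers `n ≥ 2` let `V n N` be the `ℚ`-span of the
products `Li_s(1 - 1/n) Li_t(1/n)` with `|s| + |t| = N`.

* For all `n ≥ 2`: `Z N ⊆ V n N`, and `dim (V n N) ≤ ∑_{k ≤ N} 2^k dim Z (N-k)`.
* For each `N` this is an equality (for all `M ≤ N`) at almost all `n`: for all but `C T^(1-c)` of the integers `3 ≤ n ≤ T`.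
* For every sequence `d`, `dim Z k = d_k` for all `k` if and only if for each `N` the dimensions of `V n M`, `M ≤ N`, are
  `∑_{k ≤ M} 2^k d_{M-k}` for all but `C T^(1-c)` of the `n ≤ T`.

So the relations between multiple zeta values are exactly the relations between these convergent values at almost all `n`
that do not come from the shuffle products and from path composition. No hypothesis is used.

The definitions and the proof are in `Pool.Agent.Q189.SP.Dims`. The companion `ZagierFromOneInteger` is the criterion by one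
integer for each weight, which uses the known upper bound `dim Z k ≤ d_k`.
-/

set_option autoImplicit false

open Module

namespace Pool.Agent.Results.MP_56e040_nt.DimensionFormulaAtIntegers

open Pool.Agent.Q189.SP.Dims (Z V)

/-- (1) the upper bound for all `n ≥ 2`; (2) equality at almost all `n`; (3) the criterion by almost all `n`. -/
theorem result :
    (∀ n N : ℕ, 2 ≤ n → Z N ≤ V n N ∧ finrank ℚ (V n N) ≤ ∑ k ∈ Finset.range (N + 1), 2 ^ k * finrank ℚ (Z (N - k))) ∧
    (∀ N : ℕ, ∃ C c : ℝ, 0 < c ∧ ∀ T : ℕ, 1 ≤ T →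
      (({n : ℕ | 3 ≤ n ∧ n ≤ T ∧ ¬ ∀ M ≤ N, finrank ℚ (V n M) =
        ∑ k ∈ Finset.range (M + 1), 2 ^ k * finrank ℚ (Z (M - k))}.ncard : ℕ) : ℝ) ≤ C * (T : ℝ) ^ (1 - c)) ∧
    (∀ d : ℕ → ℕ, (∀ k, finrank ℚ (Z k) = d k) ↔ ∀ N : ℕ, ∃ C c : ℝ, 0 < c ∧ ∀ T : ℕ, 1 ≤ T →
      (({n : ℕ | 3 ≤ n ∧ n ≤ T ∧ ¬ ∀ M ≤ N, finrank ℚ (V n M) =
        ∑ k ∈ Finset.range (M + 1), 2 ^ k * d (M - k)}.ncard : ℕ) : ℝ) ≤ C * (T : ℝ) ^ (1 - c)) :=
  ⟨Pool.Agent.Q189.SP.Dims.joined.1, Pool.Agent.Q189.SP.Dims.joined.2.1, Pool.Agent.Q189.SP.Dims.joined.2.2.2⟩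

end Pool.Agent.Results.MP_56e040_nt.DimensionFormulaAtIntegers
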