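import Pool.Agent.Q138.PS.VX
import Pool.Agent.Q138.PS.VY
import Pool.Agent.Q138.AI.R56e040

/-!
# Zagier's dimension conjecture and the values of multiple polylogarithms at `1/t` and `1 - 1/t`, `t` close to `α P(n)`

`Li_s(x) = ∑_{n_1 > … > n_k ≥ 1} x^{n_1} / (n_1^{s_1} ⋯ n_k^{s_k})` (weight `|s| = s_1 + ⋯ + s_k`), `Z_N` is the `ℚ`-span of
the multiple zeta values of weight `N`, and `V_N(t)` the `ℚ`-span of the products `Li_s(1 - 1/t) Li_r(1/t)` with `|s| + |r| = N`.

Let `q ≥ 2`. Outside a set of real numbers of Hausdorff dimension at most `q / (q + 1 / (q 2 ^ (q - 1)))` (that is `8 / 9` for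
`q = 2`) every `α > 0` has the following property. There is `η > 0` such that the properties `A` of integers named below are
RARE along `α P(n)`: there is `κ > 0` such that for all large `N` and ALL integral polynomials `P` of degree `q` with positive
leading coefficient and coefficients of size at most `N ^ η`, for all but `N ^ (1 - κ)` of the `n ≤ N`, NO integer `t ≥ b` (`b = 2`
or `3`) with `|t - ⌊α P(n)⌋| ≤ N ^ κ` has the property `A`.

* `dim V_M(t) ≠ ∑_{k ≤ M} 2^k dim Z_{M-k}` for some `M ≤ N` is rare, for each `N`;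
* for Zagier's numbers `d_k` (given the known bound `dim Z_k ≤ d_k`): `dim Z_k = d_k` for all `k ≤ N` if and only if
  `dim V_N(t) < ∑_{k ≤ N} 2^k d_{N-k}` is rare;
* for every sequence `d` (without the known bound): `dim Z_k = d_k` for all `k` if and only if for each `N` it is rare that the
  dimensions of the `V_M(t)`, `M ≤ N`, are not the numbers `∑_{k ≤ M} 2^k d_{M-k}`.
-/

set_option autoImplicit false

namespace Pool.Agent.Results.MP_56e040_nt.DimensionsAlongRealMultiples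

open Filter Module Pool.Agent.Q138.PS Pool.Agent.Q138.AI.R56e040

/-- **Theorem.** -/
theorem result (q : ℕ) (hq : 2 ≤ q) :
    ∃ E : Set ℝ, dimH E ≤ ENNReal.ofReal (q / (q + 1 / ((q : ℝ) * 2 ^ (q - 1)))) ∧ ∀ α : ℝ, 0 < α → α ∉ E →
      ∃ η : ℝ, 0 < η ∧
      (∀ N : ℕ, Rare q α η 3 fun n =>
        ¬ ∀ M ≤ N, finrank ℚ (V n M) = ∑ k ∈ Finset.range (M + 1), 2 ^ k * finrank ℚ (Z (M - k))) ∧
      (∀ d : ℕ → ℕ, d 0 = 1 → d 1 = 0 → d 2 = 1 → (∀ n, 3 ≤ n → d n = d (n - 2) + d (n - 3)) → (∀ k, finrank ℚ (Z k) ≤ d k) →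
        ∀ N : ℕ, (∀ k ≤ N, finrank ℚ (Z k) = d k) ↔
          Rare q α η 3 fun n => ¬ ∑ k ∈ Finset.range (N + 1), 2 ^ k * d (N - k) ≤ finrank ℚ (V n N)) ∧
      ∀ d : ℕ → ℕ, (∀ k, finrank ℚ (Z k) = d k) ↔ ∀ N : ℕ, Rare q α η 3 fun n =>
        ¬ ∀ M ≤ N, finrank ℚ (V n M) = ∑ k ∈ Finset.range (M + 1), 2 ^ k * d (M - k) := by
  obtain ⟨-, hfew, hcrit, -⟩ := Pool.Agent.Q138.AI.R56e040.result
  obtain ⟨E, hE, hg⟩ := rare_ae (ι := ℕ) q hq (fun N n => ¬ ∀ M ≤ N, finrank ℚ (V n M) =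
    ∑ k ∈ Finset.range (M + 1), 2 ^ k * finrank ℚ (Z (M - k)))
  refine ⟨E, hE, fun α hα hαE => ?_⟩
  obtain ⟨η, hη, h1⟩ := hg α hα hαE
  have hA := fun N => h1 N 3 (hfew N)
  refine ⟨η, hη, hA, ?_, ?_⟩
  · intro d d0 d1 d2 d3 hd N
    have hc := (hcrit d d0 d1 d2 d3 hd).1 N
    constructor
    · intro h
      refine (hA N).mono le_rfl fun t _ ht hall => ht ?_
      rw [hall N le_rfl]
      refine Finset.sum_le_sum fun k _ => ?_
      rw [h (N - k) (Nat.sub_le _ _)]
    · intro h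
      obtain ⟨n, hn, hn'⟩ := h.exists_not hη
      exact hc.2 ⟨n, by omega, not_not.1 hn'⟩
  · intro d
    constructor
    · intro h N
      refine (hA N).mono le_rfl fun t _ ht hall => ht fun M hM => ?_
      rw [hall M hM]
      exact Finset.sum_congr rfl fun k _ => by rw [h]
    · intro h k
      obtain ⟨n, -, hn⟩ := ((hA k).or (h k)).exists_not hη
      push Not at hn
      exact conv_inj (fun j => finrank ℚ (Z j)) d k (fun M hM => (hn.1 M hM).symm.trans (hn.2 M hM)) k le_rfl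

end Pool.Agent.Results.MP_56e040_nt.DimensionsAlongRealMultiples
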