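import Pool.Agent.Q187.ZD.Zag

/-!
# Zagier's dimension conjecture from infinitely many weights

If `dim Z_k < d_k` for one weight `k`, then `dim Z_N ≤ d_N - d_(N-k)` for all `N ≥ k`. So the
conjecture holds in all weights if it holds in infinitely many weights, and also if the upper limit
of `dim Z_N / d_N` is `1`.
-/

set_option autoImplicit false

open Module

namespace Pool.Agent.Results.MP_56e040_nt.InfinitelyManyWeights

open Pool.Agent.Q187.ZD (IsMotivic IsZagier)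

/-- The `ℚ`-span of the multiple zeta values of weight `n`. -/
noncomputable def Z (n : ℕ) : Submodule ℚ ℝ :=
  Submodule.span ℚ
    {x : ℝ | ∃ k : ℕ, ∃ s : Fin k → ℕ,
      (∀ i, 1 ≤ s i) ∧ (∀ h : 0 < k, 2 ≤ s ⟨0, h⟩) ∧ (∑ i, s i) = n ∧
      x = ∑' m : {m : Fin k → ℕ // StrictAnti m ∧ ∀ i, 0 < m i},
            ∏ i, (((m.1 i : ℕ) : ℝ) ^ (s i))⁻¹}

theorem result (d : ℕ → ℕ) (hd : IsZagier d) (H : Type) [CommRing H] [Algebra ℚ H]
    (gr : ℕ → Submodule ℚ H) (per : H →ₐ[ℚ] ℝ) (hm : IsMotivic d Z gr per) :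
    (∀ k, finrank ℚ (Z k) ≠ d k → ∀ N, k ≤ N → finrank ℚ (Z N) + d (N - k) ≤ d N) ∧
    ((∀ n, finrank ℚ (Z n) = d n) ↔ {N | finrank ℚ (Z N) = d N}.Infinite) ∧
    ((∀ n, finrank ℚ (Z n) = d n) ↔
      ∀ ε : ℝ, 0 < ε → ∀ N₀, ∃ N ≥ N₀, (1 - ε) * d N ≤ finrank ℚ (Z N)) ∧
    (∀ k, finrank ℚ (Z k) ≠ d k → ∀ N, k + 2 ≤ N →
      (finrank ℚ (Z N) : ℝ) ≤ (1 - (2 ^ k : ℝ)⁻¹) * d N) :=
  ⟨fun _ hk _ hN => Pool.Agent.Q187.ZD.weight_defect hm hk hN,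
    Pool.Agent.Q187.ZD.dims_infinite hd hm, Pool.Agent.Q187.ZD.dims_limsup hd hm,
    fun _ hk _ hN => Pool.Agent.Q187.ZD.weight_share hd hm hk hN⟩

end Pool.Agent.Results.MP_56e040_nt.InfinitelyManyWeights
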