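import Pool.Agent.Q189.SP.Dims

/-!
# Zagier's dimension conjecture from one integer for each weight

Let `Z N` be the `ℚ`-span of the multiple zeta values of weight `N`, and for integers `n ≥ 2` let `V n N` be the `ℚ`-span of the
products `Li_s(1 - 1/n) Li_t(1/n)` with `|s| + |t| = N`. Let `d_k` be Zagier's numbers; it is known that `dim Z_k ≤ d_k`. Then
`dim Z_k = d_k` for all `k ≤ N` if and only if `dim (V n N) ≥ ∑_{k ≤ N} 2^k d_{N-k}` for ONE `n ≥ 2`. So the conjecture holds if and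
only if for infinitely many `N` there is one such `n`.

The definitions and the proof are in `Pool.Agent.Q189.SP.Dims`.
-/

set_option autoImplicit false

open Module

namespace Pool.Agent.Results.MP_56e040_nt.ZagierFromOneInteger

open Pool.Agent.Q189.SP.Dims (Z V)

/-- (1) the criterion for the weights up to `N` by one `n`; (2) the criterion for all weights. -/
theorem result (d : ℕ → ℕ) (h0 : d 0 = 1) (h1 : d 1 = 0) (h2 : d 2 = 1) (h3 : ∀ n, 3 ≤ n → d n = d (n - 2) + d (n - 3))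
    (hd : ∀ k, finrank ℚ (Z k) ≤ d k) :
    (∀ N : ℕ, (∀ k ≤ N, finrank ℚ (Z k) = d k) ↔
      ∃ n : ℕ, 2 ≤ n ∧ ∑ k ∈ Finset.range (N + 1), 2 ^ k * d (N - k) ≤ finrank ℚ (V n N)) ∧
    ((∀ k, finrank ℚ (Z k) = d k) ↔ ∀ N₀ : ℕ, ∃ N n : ℕ, N₀ ≤ N ∧ 2 ≤ n ∧
      ∑ k ∈ Finset.range (N + 1), 2 ^ k * d (N - k) ≤ finrank ℚ (V n N)) :=
  Pool.Agent.Q189.SP.Dims.joined.2.2.1 d h0 h1 h2 h3 hd

end Pool.Agent.Results.MP_56e040_nt.ZagierFromOneInteger
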